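import Mathlib

/-!
# Covering few points by sliding intervals: the dynamic programme

A job `(a, b, k)` is an interval of length `k` whose left end may be any real number in `[a, b]`.
The cost is the number of the points of the list `P` which are covered. The longest interval is
placed first; the other intervals can then be placed inside it, or have to stick out to the left, or
to the right.
-/

set_option autoImplicit false

namespace Pool.Agent.X65.RW

/-- a job: first start, last start, length -/
abbrev Jb : Type := ℕ × ℕ × ℕ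

/-- the job is relevant between `A` and `B` -/
def inS (j : Jb) (A B : ℕ) : Bool := decide (A < j.1 + j.2.2) && decide (j.2.1 < B)

/-- break points -/
def brk (P : List ℕ) (j : Jb) : List ℕ := j.1 :: (P ++ P.map fun τ => τ - j.2.2)

/-- candidate positions -/
def cands (P : List ℕ) (j : Jb) : List ℕ :=
  (brk P j ++ (brk P j).map fun u => u + 1).filter fun u => decide (j.1 ≤ u) && decide (u ≤ j.2.1)

/-- the number of points of `[lo, hi]` between `A` and `B` -/
def cnt (P : List ℕ) (lo hi A B : ℕ) : ℕ :=
  (P.filter fun τ => (decide (lo ≤ τ) && decide (τ ≤ hi)) && (decide (A < τ) && decide (τ < B))).length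

/-- the least element of `l` that is less than `M`, or `M` -/
def minv (M : ℕ) (l : List ℕ) : ℕ := (((List.range M).filter fun v => decide (v ∈ l)).head?).getD M

/-- the value of the dynamic programme -/
def cost (P : List ℕ) : List Jb → ℕ → ℕ → ℕ
  | [], _, _ => 0
  | j :: js, A, B => if inS j A B = true then
      minv P.length ((cands P j).map fun t =>
        cnt P t (t + j.2.2) A B + cost P js A t + cost P js (t + j.2.2) B)
    else cost P js A B

/-- even data, or a fixed position -/
def Good (j : Jb) : Prop := (Even j.1 ∧ Even j.2.1 ∧ Even j.2.2) ∨ j.1 = j.2.1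

theorem minv_le {M v : ℕ} {l : List ℕ} (h : v ∈ l) : minv M l ≤ v := by
  unfold minv
  rw [List.head?_filter]
  cases hf : (List.range M).find? (fun v => decide (v ∈ l)) with
  | none =>
    rw [List.find?_eq_none] at hf
    rw [Option.getD_none]
    by_contra hlt
    exact hf v (List.mem_range.2 (by omega)) (by simpa using h)
  | some i =>
    rw [List.find?_range_eq_some] at hf
    rw [Option.getD_some]
    by_contra hlt
    have := hf.2.2 v (by omega)
    simp [h] at this

theorem minv_mem (M : ℕ) (l : List ℕ) : minv M l ∈ l ∨ minv M l = M := by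
  unfold minv
  rw [List.head?_filter]
  cases hf : (List.range M).find? (fun v => decide (v ∈ l)) with
  | none => exact Or.inr rfl
  | some i =>
    rw [List.find?_range_eq_some] at hf
    left
    simpa using hf.1

theorem mem_cands {P : List ℕ} {j : Jb} {c : ℕ} : c ∈ cands P j ↔
    (c ∈ brk P j ∨ ∃ u ∈ brk P j, u + 1 = c) ∧ j.1 ≤ c ∧ c ≤ j.2.1 := by
  unfold cands
  rw [List.mem_filter, List.mem_append, List.mem_map, Bool.and_eq_true, decide_eq_true_eq,
    decide_eq_true_eq]

/-- The candidate positions give all possible sets of covered points. -/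
theorem exists_cand {P : List ℕ} (hP : ∀ τ ∈ P, Even τ) {j : Jb} (hj : Good j) {x : ℝ}
    (h1 : (j.1 : ℝ) ≤ x) (h2 : x ≤ j.2.1) : ∃ c ∈ cands P j, ∀ τ ∈ P,
      (c ≤ τ ∧ τ ≤ c + j.2.2) ↔ (x ≤ τ ∧ (τ : ℝ) ≤ x + j.2.2) := by
  obtain ⟨a, b, k⟩ := j
  simp only at h1 h2 ⊢
  rcases hj with ⟨ha, hb, hk⟩ | hab
  · simp only at ha hb hk
    have hne : (((brk P (a, b, k)).toFinset).filter fun u : ℕ => (u : ℝ) ≤ x).Nonempty :=
      ⟨a, Finset.mem_filter.2 ⟨List.mem_toFinset.2 (by simp [brk]), h1⟩⟩
    obtain ⟨u, hu, hmax⟩ := Finset.exists_max_image _ (fun u : ℕ => u) hne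
    rw [Finset.mem_filter, List.mem_toFinset] at hu
    have hmax' : ∀ w ∈ brk P (a, b, k), (w : ℝ) ≤ x → w ≤ u := fun w hw hwx =>
      hmax w (Finset.mem_filter.2 ⟨List.mem_toFinset.2 hw, hwx⟩)
    have hau : a ≤ u := hmax' a (by simp [brk]) h1
    have heven : Even u := by
      have h3 := hu.1
      unfold brk at h3
      rw [List.mem_cons, List.mem_append, List.mem_map] at h3
      rcases h3 with h3 | h3 | ⟨τ, hτ, h3⟩
      · rw [h3]; exact ha
      · exact hP u h3
      · rw [← h3]
        obtain ⟨r, hr⟩ := hP τ hτ
        obtain ⟨r', hr'⟩ := hk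
        simp only
        exact ⟨r - r', by omega⟩
    rcases hu.2.lt_or_eq with hlt | heq
    · have hub : u < b := by exact_mod_cast hlt.trans_le h2
      have hub2 : u + 1 ≤ b := hub
      refine ⟨u + 1, mem_cands.2 ⟨Or.inr ⟨u, hu.1, rfl⟩, by simp only; omega, hub2⟩, ?_⟩
      intro τ hτ
      have hτe := hP τ hτ
      constructor
      · rintro ⟨h3, h4⟩
        constructor
        · by_contra h5
          have h6 := hmax' τ (by unfold brk; simp [hτ]) (not_le.1 h5).le
          omega
        · have h5 : τ ≤ u + k := by
            obtain ⟨r, hr⟩ := hτe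
            obtain ⟨r', hr'⟩ := heven
            obtain ⟨r'', hr''⟩ := hk
            omega
          have h6 : (τ : ℝ) ≤ u + k := by exact_mod_cast h5
          linarith
      · rintro ⟨h3, h4⟩
        constructor
        · have h5 : (u : ℝ) < τ := hlt.trans_le h3
          exact_mod_cast h5
        · by_cases h5 : τ ≤ k
          · omega
          · have h6 : ((τ - k : ℕ) : ℝ) ≤ x := by
              rw [Nat.cast_sub (by omega)]
              linarith
            have h7 := hmax' (τ - k) (by
              unfold brk
              rw [List.mem_cons, List.mem_append, List.mem_map]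
              exact Or.inr (Or.inr ⟨τ, hτ, rfl⟩)) h6
            omega
    · have hub : u ≤ b := by
        rw [← heq] at h2
        exact_mod_cast h2
      refine ⟨u, mem_cands.2 ⟨Or.inl hu.1, hau, hub⟩, ?_⟩
      intro τ _
      rw [← heq]
      norm_cast
  · simp only at hab
    have hx : x = a := le_antisymm (by rw [hab]; exact h2) h1
    refine ⟨a, mem_cands.2 ⟨Or.inl (by simp [brk]), le_rfl, by simp only; omega⟩, ?_⟩
    intro τ _
    rw [hx]
    norm_cast

open Classical in
/-- The number of points between `A` and `B` covered by the relevant jobs, when the positions are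
given by `R`. -/
noncomputable def cov (P : List ℕ) (R : Jb → ℝ → Prop) (js : List Jb) (A B : ℕ) : ℕ :=
  P.countP fun τ => decide (A < τ ∧ τ < B ∧ ∃ j ∈ js, inS j A B = true ∧ ∃ x, R j x ∧ x ≤ τ ∧
    (τ : ℝ) ≤ x + j.2.2)

theorem countP_three {P : List ℕ} (f g h s : ℕ → Bool)
    (h1 : ∀ τ ∈ P, f τ = true → s τ = true) (h2 : ∀ τ ∈ P, g τ = true → s τ = true)
    (h3 : ∀ τ ∈ P, h τ = true → s τ = true) (h12 : ∀ τ ∈ P, f τ = true → g τ = true → False)
    (h13 : ∀ τ ∈ P, f τ = true → h τ = true → False)
    (h23 : ∀ τ ∈ P, g τ = true → h τ = true → False) :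
    P.countP f + P.countP g + P.countP h ≤ P.countP s := by
  induction P with
  | nil => simp
  | cons a l ih =>
    have ih' := ih (fun τ hτ => h1 τ (List.mem_cons_of_mem _ hτ))
      (fun τ hτ => h2 τ (List.mem_cons_of_mem _ hτ)) (fun τ hτ => h3 τ (List.mem_cons_of_mem _ hτ))
      (fun τ hτ => h12 τ (List.mem_cons_of_mem _ hτ))
      (fun τ hτ => h13 τ (List.mem_cons_of_mem _ hτ))
      (fun τ hτ => h23 τ (List.mem_cons_of_mem _ hτ))
    have a1 := h1 a List.mem_cons_self
    have a2 := h2 a List.mem_cons_self
    have a3 := h3 a List.mem_cons_self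
    have a12 := h12 a List.mem_cons_self
    have a13 := h13 a List.mem_cons_self
    have a23 := h23 a List.mem_cons_self
    rw [List.countP_cons, List.countP_cons, List.countP_cons, List.countP_cons]
    cases hf : f a <;> cases hg : g a <;> cases hh : h a <;> cases hs : s a <;>
      simp_all <;> omega

theorem countP_three' {P : List ℕ} (f g h s : ℕ → Bool)
    (h1 : ∀ τ ∈ P, s τ = true → f τ = true ∨ g τ = true ∨ h τ = true) :
    P.countP s ≤ P.countP f + P.countP g + P.countP h := by
  induction P with
  | nil => simp
  | cons a l ih =>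
    have ih' := ih (fun τ hτ => h1 τ (List.mem_cons_of_mem _ hτ))
    have a1 := h1 a List.mem_cons_self
    rw [List.countP_cons, List.countP_cons, List.countP_cons, List.countP_cons]
    cases hf : f a <;> cases hg : g a <;> cases hh : h a <;> cases hs : s a <;>
      simp_all <;> omega

theorem cnt_eq (P : List ℕ) (lo hi A B : ℕ) : cnt P lo hi A B =
    P.countP fun τ => (decide (lo ≤ τ) && decide (τ ≤ hi)) && (decide (A < τ) && decide (τ < B)) :=
  (List.countP_eq_length_filter ..).symm

/-- **Lower bound.** -/
theorem cost_le_cov {P : List ℕ} (hP : ∀ τ ∈ P, Even τ) (R : Jb → ℝ → Prop) :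
    ∀ (js : List Jb), (∀ j ∈ js, Good j) →
      (∀ j ∈ js, ∃ x : ℝ, R j x ∧ (j.1 : ℝ) ≤ x ∧ x ≤ j.2.1) →
      ∀ A B : ℕ, cost P js A B ≤ cov P R js A B := by
  classical
  intro js
  induction js with
  | nil => intro _ _ A B; simp [cost]
  | cons j js ih =>
    intro hg hR A B
    have ih' := ih (fun j hj => hg j (List.mem_cons_of_mem _ hj))
      (fun j hj => hR j (List.mem_cons_of_mem _ hj))
    unfold cost
    by_cases hS : inS j A B = true
    · rw [if_pos hS]
      obtain ⟨x, hRx, hx1, hx2⟩ := hR j List.mem_cons_self
      obtain ⟨c, hc, hcov⟩ := exists_cand hP (hg j List.mem_cons_self) hx1 hx2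
      have hc' := mem_cands.1 hc
      unfold inS at hS
      rw [Bool.and_eq_true, decide_eq_true_eq, decide_eq_true_eq] at hS
      refine (minv_le (List.mem_map.2 ⟨c, hc, rfl⟩)).trans ?_
      refine (Nat.add_le_add (Nat.add_le_add_left (ih' A c) _) (ih' (c + j.2.2) B)).trans ?_
      rw [cnt_eq]
      unfold cov
      refine countP_three _ _ _ _ ?_ ?_ ?_ ?_ ?_ ?_
      · intro τ hτ h
        simp only [Bool.and_eq_true, decide_eq_true_eq] at h ⊢
        obtain ⟨⟨h1, h2⟩, h3, h4⟩ := h
        have h5 := (hcov τ hτ).1 ⟨h1, h2⟩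
        refine ⟨h3, h4, j, List.mem_cons_self, ?_, x, hRx, h5.1, h5.2⟩
        unfold inS
        simp [hS.1, hS.2]
      · intro τ hτ h
        simp only [decide_eq_true_eq] at h ⊢
        obtain ⟨h1, h2, j', hj', hin, x', hR', h3, h4⟩ := h
        refine ⟨h1, by omega, j', List.mem_cons_of_mem _ hj', ?_, x', hR', h3, h4⟩
        unfold inS at hin ⊢
        rw [Bool.and_eq_true, decide_eq_true_eq, decide_eq_true_eq] at hin ⊢
        omega
      · intro τ hτ h
        simp only [decide_eq_true_eq] at h ⊢
        obtain ⟨h1, h2, j', hj', hin, x', hR', h3, h4⟩ := h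
        refine ⟨by omega, h2, j', List.mem_cons_of_mem _ hj', ?_, x', hR', h3, h4⟩
        unfold inS at hin ⊢
        rw [Bool.and_eq_true, decide_eq_true_eq, decide_eq_true_eq] at hin ⊢
        omega
      · intro τ _ h h'
        simp only [Bool.and_eq_true, decide_eq_true_eq] at h h'
        omega
      · intro τ _ h h'
        simp only [Bool.and_eq_true, decide_eq_true_eq] at h h'
        omega
      · intro τ _ h h'
        simp only [decide_eq_true_eq] at h h'
        omega
    · rw [if_neg hS]
      refine (ih' A B).trans ?_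
      unfold cov
      refine List.countP_mono_left fun τ _ h => ?_
      simp only [decide_eq_true_eq] at h ⊢
      obtain ⟨h1, h2, j', hj', h3⟩ := h
      exact ⟨h1, h2, j', List.mem_cons_of_mem _ hj', h3⟩

/-- **Upper bound.** -/
theorem exists_pos (P : List ℕ) : ∀ (js : List Jb), js.Pairwise (fun a b => b.2.2 ≤ a.2.2) →
    (∀ j ∈ js, j.1 ≤ j.2.1) → ∀ A B : ℕ, ∃ f : Jb → ℕ, (∀ j ∈ js, j.1 ≤ f j ∧ f j ≤ j.2.1) ∧
      (P.countP fun τ => decide (A < τ ∧ τ < B ∧ ∃ j ∈ js, inS j A B = true ∧ f j ≤ τ ∧
        τ ≤ f j + j.2.2)) ≤ cost P js A B := by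
  classical
  intro js
  induction js with
  | nil => intro _ _ A B; exact ⟨fun _ => 0, by simp, by simp [cost]⟩
  | cons j js ih =>
    intro hsort hv A B
    rw [List.pairwise_cons] at hsort
    have ih' := ih hsort.2 (fun j hj => hv j (List.mem_cons_of_mem _ hj))
    unfold cost
    by_cases hS : inS j A B = true
    · rw [if_pos hS]
      unfold inS at hS
      rw [Bool.and_eq_true, decide_eq_true_eq, decide_eq_true_eq] at hS
      rcases minv_mem P.length ((cands P j).map fun t =>
        cnt P t (t + j.2.2) A B + cost P js A t + cost P js (t + j.2.2) B) with hm | hm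
      · rw [List.mem_map] at hm
        obtain ⟨c, hc, hmv⟩ := hm
        rw [← hmv]
        have hc' := (mem_cands.1 hc).2
        obtain ⟨f1, hf1, hc1⟩ := ih' A c
        obtain ⟨f2, hf2, hc2⟩ := ih' (c + j.2.2) B
        refine ⟨fun i => if i = j then c else if inS i A c = true then f1 i else
          if inS i (c + j.2.2) B = true then f2 i else if inS i A B = true then max c i.1
          else i.1, ?_, ?_⟩
        · intro i hi
          simp only
          by_cases hij : i = j
          · rw [if_pos hij, hij]
            exact hc'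
          · rw [if_neg hij]
            have hi' : i ∈ js := (List.mem_cons.1 hi).resolve_left hij
            have hvi := hv i hi
            by_cases hA : inS i A c = true
            · rw [if_pos hA]
              exact hf1 i hi'
            · rw [if_neg hA]
              by_cases hB : inS i (c + j.2.2) B = true
              · rw [if_pos hB]
                exact hf2 i hi'
              · rw [if_neg hB]
                by_cases hAB : inS i A B = true
                · rw [if_pos hAB]
                  unfold inS at hA hB hAB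
                  simp only [Bool.and_eq_true, decide_eq_true_eq, not_and, not_lt] at hA hB hAB
                  have h1 := hA hAB.1
                  omega
                · rw [if_neg hAB]
                  exact ⟨le_rfl, hvi⟩
        · refine le_trans ?_ (Nat.add_le_add (Nat.add_le_add_left hc1 _) hc2)
          rw [cnt_eq]
          refine countP_three' _ _ _ _ ?_
          intro τ _ h
          simp only [decide_eq_true_eq, Bool.and_eq_true] at h ⊢
          obtain ⟨h1, h2, i, hi, hin, h3, h4⟩ := h
          by_cases hij : i = j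
          · rw [if_pos hij] at h3 h4
            left
            rw [hij] at h4
            exact ⟨⟨h3, h4⟩, h1, h2⟩
          · rw [if_neg hij] at h3 h4
            have hi' : i ∈ js := (List.mem_cons.1 hi).resolve_left hij
            have hlen := hsort.1 i hi'
            by_cases hA : inS i A c = true
            · rw [if_pos hA] at h3 h4
              by_cases hτ : τ < c
              · right; left
                exact ⟨h1, hτ, i, hi', hA, h3, h4⟩
              · left
                have h5 := (hf1 i hi').2
                unfold inS at hA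
                rw [Bool.and_eq_true, decide_eq_true_eq, decide_eq_true_eq] at hA
                refine ⟨⟨by omega, by omega⟩, h1, h2⟩
            · rw [if_neg hA] at h3 h4
              by_cases hB : inS i (c + j.2.2) B = true
              · rw [if_pos hB] at h3 h4
                by_cases hτ : c + j.2.2 < τ
                · right; right
                  exact ⟨hτ, h2, i, hi', hB, h3, h4⟩
                · left
                  have h5 := (hf2 i hi').1
                  unfold inS at hB
                  rw [Bool.and_eq_true, decide_eq_true_eq, decide_eq_true_eq] at hB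
                  refine ⟨⟨by omega, by omega⟩, h1, h2⟩
              · rw [if_neg hB, if_pos hin] at h3 h4
                left
                unfold inS at hA hB hin
                simp only [Bool.and_eq_true, decide_eq_true_eq, not_and, not_lt] at hA hB hin
                have h5 := hA hin.1
                have h6 : i.1 + i.2.2 ≤ c + j.2.2 := by
                  by_contra h7
                  have := hB (not_le.1 h7)
                  omega
                refine ⟨⟨by omega, by omega⟩, h1, h2⟩
      · rw [hm]
        refine ⟨fun i => i.1, fun i hi => ⟨le_rfl, hv i hi⟩, List.countP_le_length⟩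
    · rw [if_neg hS]
      obtain ⟨f, hf, hc⟩ := ih' A B
      refine ⟨fun i => if i ∈ js then f i else i.1, ?_, ?_⟩
      · intro i hi
        simp only
        by_cases hi' : i ∈ js
        · rw [if_pos hi']
          exact hf i hi'
        · rw [if_neg hi']
          exact ⟨le_rfl, hv i hi⟩
      · refine le_trans (List.countP_mono_left fun τ _ h => ?_) hc
        simp only [decide_eq_true_eq] at h ⊢
        obtain ⟨h1, h2, i, hi, hin, h3, h4⟩ := h
        have hi' : i ∈ js := by
          rcases List.mem_cons.1 hi with h5 | h5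
          · rw [h5] at hin
            exact absurd hin hS
          · exact h5
        rw [if_pos hi'] at h3 h4
        exact ⟨h1, h2, i, hi', hin, h3, h4⟩

/-! ### Sorting -/

/-- insertion into a list sorted by decreasing length -/
def ins (l : List Jb) (j : Jb) : List Jb :=
  (l.filter fun i => decide (j.2.2 ≤ i.2.2)) ++ j :: (l.filter fun i => !decide (j.2.2 ≤ i.2.2))

/-- sorting by decreasing length -/
def srt (J : List Jb) : List Jb := J.foldl ins []

theorem ins_perm (l : List Jb) (j : Jb) : (ins l j).Perm (j :: l) := by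
  unfold ins
  refine List.perm_middle.trans (List.Perm.cons _ ?_)
  exact List.filter_append_perm _ _

theorem ins_sorted {l : List Jb} (h : l.Pairwise (fun a b => b.2.2 ≤ a.2.2)) (j : Jb) :
    (ins l j).Pairwise (fun a b => b.2.2 ≤ a.2.2) := by
  unfold ins
  rw [List.pairwise_append, List.pairwise_cons]
  refine ⟨h.filter _, ⟨?_, h.filter _⟩, ?_⟩
  · intro i hi
    have := (List.mem_filter.1 hi).2
    simp only [Bool.not_eq_true', decide_eq_false_iff_not, not_le] at this
    exact this.le
  · intro a ha b hb
    have ha' := (List.mem_filter.1 ha).2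
    simp only [decide_eq_true_eq] at ha'
    rcases List.mem_cons.1 hb with hb | hb
    · rw [hb]
      exact ha'
    · have hb' := (List.mem_filter.1 hb).2
      simp only [Bool.not_eq_true', decide_eq_false_iff_not, not_le] at hb'
      exact hb'.le.trans ha'

theorem srt_aux : ∀ (J l : List Jb), l.Pairwise (fun a b => b.2.2 ≤ a.2.2) →
    (J.foldl ins l).Pairwise (fun a b => b.2.2 ≤ a.2.2) ∧ (J.foldl ins l).Perm (l ++ J)
  | [], l, h => ⟨h, by simp⟩
  | j :: J, l, h => by
    obtain ⟨h1, h2⟩ := srt_aux J (ins l j) (ins_sorted h j)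
    refine ⟨h1, ?_⟩
    simp only [List.foldl_cons]
    refine h2.trans ?_
    refine ((ins_perm l j).append_right J).trans ?_
    exact (List.perm_middle (l₁ := l) (a := j) (l₂ := J)).symm

theorem srt_sorted (J : List Jb) : (srt J).Pairwise (fun a b => b.2.2 ≤ a.2.2) :=
  (srt_aux J [] List.Pairwise.nil).1

theorem srt_perm (J : List Jb) : (srt J).Perm J := by
  have h := (srt_aux J [] List.Pairwise.nil).2
  rw [List.nil_append] at h
  exact h

theorem mem_srt {J : List Jb} {j : Jb} : j ∈ srt J ↔ j ∈ J := (srt_perm J).mem_iff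

/-- a number that is larger than all points and last starts -/
def big (P : List ℕ) (J : List Jb) : ℕ := P.sum + (J.map fun j => j.2.1).sum + 1

/-- the optimum -/
def optv (P : List ℕ) (J : List Jb) : ℕ := cost P (srt J) 0 (big P J)

theorem optv_le {P : List ℕ} (hP : ∀ τ ∈ P, Even τ) (R : Jb → ℝ → Prop) {J : List Jb}
    (hg : ∀ j ∈ J, Good j)
    (hR : ∀ j ∈ J, ∃ x : ℝ, R j x ∧ (j.1 : ℝ) ≤ x ∧ x ≤ j.2.1) (s : ℕ → Bool)
    (hs : ∀ τ ∈ P, (∃ j ∈ J, ∃ x, R j x ∧ x ≤ τ ∧ (τ : ℝ) ≤ x + j.2.2) → s τ = true) :
    optv P J ≤ P.countP s := by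
  classical
  refine (cost_le_cov hP R (srt J) (fun j hj => hg j (mem_srt.1 hj))
    (fun j hj => hR j (mem_srt.1 hj)) 0 (big P J)).trans ?_
  unfold cov
  refine List.countP_mono_left fun τ hτ h => ?_
  simp only [decide_eq_true_eq] at h
  obtain ⟨_, _, j, hj, _, h5⟩ := h
  exact hs τ hτ ⟨j, mem_srt.1 hj, h5⟩

theorem mem_le_sum {l : List ℕ} {a : ℕ} (h : a ∈ l) : a ≤ l.sum := by
  induction l with
  | nil => simp at h
  | cons b l ih =>
    rw [List.sum_cons]
    rcases List.mem_cons.1 h with h | h
    · omega
    · have := ih h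
      omega

theorem optv_ach {P : List ℕ} {J : List Jb} (h0 : ∀ τ ∈ P, 0 < τ) (h1 : ∀ j ∈ J, 0 < j.1)
    (hv : ∀ j ∈ J, j.1 ≤ j.2.1) : ∃ f : Jb → ℕ, (∀ j ∈ J, j.1 ≤ f j ∧ f j ≤ j.2.1) ∧
      (P.countP fun τ => decide (∃ j ∈ J, f j ≤ τ ∧ τ ≤ f j + j.2.2)) ≤ optv P J := by
  classical
  obtain ⟨f, hf, hc⟩ := exists_pos P (srt J) (srt_sorted J) (fun j hj => hv j (mem_srt.1 hj)) 0
    (big P J)
  refine ⟨f, fun j hj => hf j (mem_srt.2 hj), le_trans (List.countP_mono_left fun τ hτ h => ?_) hc⟩
  simp only [decide_eq_true_eq] at h ⊢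
  obtain ⟨j, hj, h3, h4⟩ := h
  refine ⟨h0 τ hτ, ?_, j, mem_srt.2 hj, ?_, h3, h4⟩
  · have := mem_le_sum hτ
    unfold big
    omega
  · unfold inS
    rw [Bool.and_eq_true, decide_eq_true_eq, decide_eq_true_eq]
    have h5 := h1 j hj
    have h6 : j.2.1 ≤ (J.map fun j => j.2.1).sum := mem_le_sum (List.mem_map.2 ⟨j, hj, rfl⟩)
    unfold big
    omega

end Pool.Agent.X65.RW
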