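import Pool.Agent.X65.RW.Search

/-!
# Maintenance of a corridor with parallel train paths

The geometric problem, and its reduction to sliding intervals on the line.
-/

set_option autoImplicit false

namespace Pool.Agent.X65.RW

/-- a nonnegative rational number, given as a fraction (numerator, denominator) -/
abbrev Fr : Type := ℕ × ℕ

/-- the value of a fraction -/
noncomputable def toR (q : Fr) : ℝ := (q.1 : ℝ) / (q.2 : ℝ)

/-- a job: release time, deadline, processing time, and the two ends of the location interval -/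
abbrev Job : Type := Fr × Fr × Fr × Fr × Fr

/-- release time -/
noncomputable def rel (j : Job) : ℝ := toR j.1
/-- deadline -/
noncomputable def dl (j : Job) : ℝ := toR j.2.1
/-- processing time -/
noncomputable def proc (j : Job) : ℝ := toR j.2.2.1
/-- lower end of the location interval -/
noncomputable def lo (j : Job) : ℝ := toR j.2.2.2.1
/-- upper end of the location interval -/
noncomputable def hi (j : Job) : ℝ := toR j.2.2.2.2

/-- The instances: `L` is the length of the corridor, `δ` the travel time, `T` the increasing list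
of the start times of the paths, `J` the list of the jobs. -/
def IsInstance (L δ : Fr) (T : List Fr) (J : List Job) : Prop :=
  (0 < L.2 ∧ 0 < δ.2 ∧ (∀ t ∈ T, 0 < t.2) ∧ ∀ j ∈ J,
    0 < j.1.2 ∧ 0 < j.2.1.2 ∧ 0 < j.2.2.1.2 ∧ 0 < j.2.2.2.1.2 ∧ 0 < j.2.2.2.2.2) ∧
  0 < toR L ∧ 0 < toR δ ∧ T.Pairwise (fun t t' => toR t < toR t') ∧
  ∀ j ∈ J, proc j ≤ dl j - rel j ∧ lo j ≤ hi j ∧ hi j ≤ toR L

/-- schedules: a start time in `[r, d - p]` for each job -/
def IsSchedule (J : List Job) (S : List ℝ) : Prop :=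
  List.Forall₂ (fun j s => rel j ≤ s ∧ s ≤ dl j - proc j) J S

/-- the path that starts at time `t`, in the (time, location) plane -/
def path (L δ t : ℝ) : Set (ℝ × ℝ) := segment ℝ (t, (0 : ℝ)) (t + δ, L)

/-- the box of the job `j` when it starts at time `s` -/
def box (j : Job) (s : ℝ) : Set (ℝ × ℝ) := Set.Icc s (s + proc j) ×ˢ Set.Icc (lo j) (hi j)

/-- The path that starts at time `t` meets the box of a job. -/
def Cancelled (L δ : Fr) (J : List Job) (S : List ℝ) (t : Fr) : Prop :=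
  ∃ e ∈ J.zip S, (path (toR L) (toR δ) (toR t) ∩ box e.1 e.2).Nonempty

open Classical in
/-- the number of the cancelled paths -/
noncomputable def cancelled (L δ : Fr) (T : List Fr) (J : List Job) (S : List ℝ) : ℕ :=
  (T.filter fun t => decide (Cancelled L δ J S t)).length

/-! ### The reduction -/

theorem meets {L δ t s p l u : ℝ} (hL : 0 < L) (hδ : 0 < δ) (hp : 0 ≤ p) (hl : 0 ≤ l) (hlu : l ≤ u)
    (hu : u ≤ L) : (path L δ t ∩ (Set.Icc s (s + p) ×ˢ Set.Icc l u)).Nonempty ↔
      L * s ≤ L * t + δ * u ∧ L * t + δ * l ≤ L * (s + p) := by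
  unfold path
  constructor
  · rintro ⟨z, hz, hz2⟩
    rw [segment_eq_image'] at hz
    obtain ⟨θ, hθ, rfl⟩ := hz
    simp only [Prod.mk_sub_mk, Prod.smul_mk, Prod.mk_add_mk, smul_eq_mul, Set.mem_prod,
      Set.mem_Icc, sub_zero, zero_add] at hz2
    obtain ⟨⟨h1, h2⟩, h3, h4⟩ := hz2
    have e : θ * (t + δ - t) = θ * δ := by ring
    rw [e] at h1 h2
    constructor
    · nlinarith [mul_le_mul_of_nonneg_left h1 hL.le, mul_le_mul_of_nonneg_left h4 hδ.le]
    · nlinarith [mul_le_mul_of_nonneg_left h2 hL.le, mul_le_mul_of_nonneg_left h3 hδ.le]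
  · rintro ⟨h1, h2⟩
    have h1' : s ≤ t + δ * u / L := by
      have : s - t ≤ δ * u / L := by
        rw [le_div_iff₀ hL]
        nlinarith
      linarith
    have h2' : t + δ * l / L ≤ s + p := by
      have : δ * l / L ≤ s + p - t := by
        rw [div_le_iff₀ hL]
        nlinarith
      linarith
    have h3 : δ * l / L ≤ δ * u / L := by
      gcongr
    have h4 : 0 ≤ δ * l / L := by positivity
    have h5 : δ * u / L ≤ δ := by
      rw [div_le_iff₀ hL]
      nlinarith
    obtain ⟨w, hw⟩ : ∃ w, w = max s (t + δ * l / L) := ⟨_, rfl⟩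
    have hw1 : s ≤ w := by rw [hw]; exact le_max_left _ _
    have hw2 : t + δ * l / L ≤ w := by rw [hw]; exact le_max_right _ _
    have hw3 : w ≤ t + δ * u / L := by rw [hw]; exact max_le h1' (by linarith)
    have hw4 : w ≤ s + p := by rw [hw]; exact max_le (by linarith) h2'
    have h6 : l ≤ (w - t) / δ * L := by
      rw [div_mul_eq_mul_div, le_div_iff₀ hδ]
      have : δ * l / L ≤ w - t := by linarith
      rw [div_le_iff₀ hL] at this
      linarith
    have h7 : (w - t) / δ * L ≤ u := by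
      rw [div_mul_eq_mul_div, div_le_iff₀ hδ]
      have : w - t ≤ δ * u / L := by linarith
      rw [le_div_iff₀ hL] at this
      linarith
    refine ⟨(w, (w - t) / δ * L), ?_, ⟨⟨hw1, hw4⟩, ⟨h6, h7⟩⟩⟩
    rw [segment_eq_image']
    refine ⟨(w - t) / δ, ⟨div_nonneg (by linarith) hδ.le, ?_⟩, ?_⟩
    · rw [div_le_one hδ]
      linarith
    · simp only [Prod.mk_sub_mk, Prod.smul_mk, Prod.mk_add_mk, smul_eq_mul, sub_zero, zero_add]
      congr 1
      field_simp
      ring

/-- the numerator of `D` times a fraction -/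
def nn (D : ℕ) (q : Fr) : ℕ := q.1 * (D / q.2)

theorem cast_nn {D : ℕ} {q : Fr} (h : q.2 ∣ D) (h0 : 0 < q.2) : (nn D q : ℝ) = D * toR q := by
  obtain ⟨c, rfl⟩ := h
  unfold nn toR
  rw [Nat.mul_div_cancel_left _ h0]
  have h1 : (q.2 : ℝ) ≠ 0 := by exact_mod_cast h0.ne'
  push_cast
  field_simp

/-- the point of a path -/
def tau (D : ℕ) (L δ t : Fr) : ℕ := 2 * (nn D L * (nn D t + nn D δ)) + 2

/-- the offset of a job -/
def off (D : ℕ) (L δ : Fr) (j : Job) : ℕ := 2 * (nn D δ * (nn D L - nn D j.2.2.2.2)) + 2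

/-- the sliding interval of a job -/
def jb (D : ℕ) (L δ : Fr) (j : Job) : Jb :=
  (2 * (nn D L * nn D j.1) + off D L δ j,
    2 * (nn D L * (nn D j.2.1 - nn D j.2.2.1)) + off D L δ j,
    2 * (nn D L * nn D j.2.2.1 + nn D δ * (nn D j.2.2.2.2 - nn D j.2.2.2.1)))

/-- all denominators -/
def dens (L δ : Fr) (T : List Fr) (J : List Job) : List ℕ :=
  L.2 :: δ.2 :: (T.map (fun t => t.2) ++
    J.flatMap fun j => [j.1.2, j.2.1.2, j.2.2.1.2, j.2.2.2.1.2, j.2.2.2.2.2])

/-- the product of a list -/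
def prd (l : List ℕ) : ℕ := l.foldl (fun a b => a * b) 1

/-- the real position of the interval of the job `j` that starts at time `s` -/
noncomputable def X (D : ℕ) (L δ : Fr) (j : Job) (s : ℝ) : ℝ :=
  2 * (nn D L) * (D * s) + off D L δ j

/-- the start time for a position -/
def st (D : ℕ) (L δ : Fr) (e : Job × Jb) : Fr := (e.2.1 - off D L δ e.1, 2 * (nn D L * D))

/-- the algorithm -/
def algD (D : ℕ) (L δ : Fr) (T : List Fr) (J : List Job) : List Fr :=
  (J.zip (solve (T.map fun t => tau D L δ t) (J.map fun j => jb D L δ j))).map fun e => st D L δ e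

/-- the algorithm -/
def alg (x : Fr × Fr × List Fr × List Job) : List Fr :=
  algD (prd (dens x.1 x.2.1 x.2.2.1 x.2.2.2)) x.1 x.2.1 x.2.2.1 x.2.2.2

theorem prd_eq (l : List ℕ) : prd l = l.prod := by
  unfold prd
  rw [List.prod_eq_foldl]

theorem toR_nonneg (q : Fr) : 0 ≤ toR q := by
  unfold toR
  positivity

section

variable {D : ℕ} {L δ : Fr} {T : List Fr} {J : List Job}

/-- the multiplier is good -/
def GoodD (D : ℕ) (L δ : Fr) (T : List Fr) (J : List Job) : Prop :=
  0 < D ∧ L.2 ∣ D ∧ δ.2 ∣ D ∧ (∀ t ∈ T, t.2 ∣ D) ∧ ∀ j ∈ J,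
    j.1.2 ∣ D ∧ j.2.1.2 ∣ D ∧ j.2.2.1.2 ∣ D ∧ j.2.2.2.1.2 ∣ D ∧ j.2.2.2.2.2 ∣ D

theorem goodD (h : IsInstance L δ T J) : GoodD (prd (dens L δ T J)) L δ T J := by
  obtain ⟨⟨h1, h2, h3, h4⟩, _⟩ := h
  rw [prd_eq]
  have hd : ∀ b ∈ dens L δ T J, b ∣ (dens L δ T J).prod := fun b hb => List.dvd_prod hb
  refine ⟨?_, hd _ ?_, hd _ ?_, fun t ht => hd _ ?_, fun j hj => ⟨hd _ ?_, hd _ ?_, hd _ ?_,
    hd _ ?_, hd _ ?_⟩⟩
  · refine List.prod_pos fun b hb => ?_
    unfold dens at hb
    rw [List.mem_cons, List.mem_cons, List.mem_append, List.mem_map, List.mem_flatMap] at hb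
    rcases hb with rfl | rfl | ⟨t, ht, rfl⟩ | ⟨j, hj, hb⟩
    · exact h1
    · exact h2
    · exact h3 t ht
    · have := h4 j hj
      simp only [List.mem_cons, List.not_mem_nil, or_false] at hb
      rcases hb with rfl | rfl | rfl | rfl | rfl
      · exact this.1
      · exact this.2.1
      · exact this.2.2.1
      · exact this.2.2.2.1
      · exact this.2.2.2.2
  · unfold dens; simp
  · unfold dens; simp
  · unfold dens
    rw [List.mem_cons, List.mem_cons, List.mem_append, List.mem_map]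
    exact Or.inr (Or.inr (Or.inl ⟨t, ht, rfl⟩))
  all_goals
    unfold dens
    rw [List.mem_cons, List.mem_cons, List.mem_append, List.mem_flatMap]
    refine Or.inr (Or.inr (Or.inr ⟨j, hj, ?_⟩))
    simp

theorem cast_sub_nn {q q' : Fr} (h : q.2 ∣ D) (h0 : 0 < q.2) (h' : q'.2 ∣ D) (h0' : 0 < q'.2)
    (hle : toR q' ≤ toR q) : ((nn D q - nn D q' : ℕ) : ℝ) = D * toR q - D * toR q' := by
  have h1 : nn D q' ≤ nn D q := by
    have : (nn D q' : ℝ) ≤ nn D q := by
      rw [cast_nn h h0, cast_nn h' h0']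
      exact mul_le_mul_of_nonneg_left hle (Nat.cast_nonneg D)
    exact_mod_cast this
  rw [Nat.cast_sub h1, cast_nn h h0, cast_nn h' h0']

/-- the casts of the data of a job -/
theorem casts (hI : IsInstance L δ T J) (hD : GoodD D L δ T J) {j : Job} (hj : j ∈ J) :
    ((jb D L δ j).1 : ℝ) = X D L δ j (rel j) ∧
    ((jb D L δ j).2.1 : ℝ) = X D L δ j (dl j - proc j) ∧
    ((jb D L δ j).2.2 : ℝ) =
      2 * (nn D L) * (D * proc j) + 2 * (nn D δ) * (D * hi j - D * lo j) ∧
    ((off D L δ j : ℕ) : ℝ) = 2 * (nn D δ) * (D * toR L - D * hi j) + 2 := by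
  obtain ⟨⟨h1, h2, h3, h4⟩, h5, h6, h7, h8⟩ := hI
  obtain ⟨g0, g1, g2, g3, g4⟩ := hD
  obtain ⟨a1, a2, a3, a4, a5⟩ := h4 j hj
  obtain ⟨b1, b2, b3, b4, b5⟩ := g4 j hj
  obtain ⟨c1, c2, c3⟩ := h8 j hj
  have hr := toR_nonneg j.1
  unfold rel dl proc lo hi at *
  refine ⟨?_, ?_, ?_, ?_⟩
  · unfold jb X
    simp only
    push_cast
    rw [cast_nn b1 a1]
    ring
  · unfold jb X
    simp only
    rw [Nat.cast_add, Nat.cast_mul, Nat.cast_mul, cast_sub_nn b2 a2 b3 a3 (by linarith)]
    push_cast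
    ring
  · unfold jb
    simp only
    rw [Nat.cast_mul, Nat.cast_add, Nat.cast_mul, Nat.cast_mul, cast_sub_nn b5 a5 b4 a4 c2,
      cast_nn b3 a3]
    push_cast
    ring
  · unfold off
    rw [Nat.cast_add, Nat.cast_mul, Nat.cast_mul, cast_sub_nn g1 h1 b5 a5 c3]
    push_cast
    ring

theorem nnL_pos (hI : IsInstance L δ T J) (hD : GoodD D L δ T J) : (0 : ℝ) < nn D L := by
  rw [cast_nn hD.2.1 hI.1.1]
  have : (0 : ℝ) < D := by exact_mod_cast hD.1
  exact mul_pos this hI.2.1

theorem meets_iff (hI : IsInstance L δ T J) (hD : GoodD D L δ T J) {j : Job} (hj : j ∈ J) {t : Fr}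
    (ht : t ∈ T) (s : ℝ) : (path (toR L) (toR δ) (toR t) ∩ box j s).Nonempty ↔
      X D L δ j s ≤ tau D L δ t ∧ (tau D L δ t : ℝ) ≤ X D L δ j s + (jb D L δ j).2.2 := by
  obtain ⟨_, _, e3, e4⟩ := casts hI hD hj
  obtain ⟨⟨h1, h2, h3, h4⟩, h5, h6, h7, h8⟩ := hI
  obtain ⟨g0, g1, g2, g3, g4⟩ := hD
  obtain ⟨c1, c2, c3⟩ := h8 j hj
  have hp : 0 ≤ proc j := toR_nonneg _
  have hl : 0 ≤ lo j := toR_nonneg _
  unfold box
  rw [meets h5 h6 hp hl c2 c3, e3]
  unfold X
  rw [e4]
  have e5 : (tau D L δ t : ℝ) = 2 * (D * toR L * (D * toR t + D * toR δ)) + 2 := by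
    unfold tau
    push_cast
    rw [cast_nn g1 h1, cast_nn g2 h2, cast_nn (g3 t ht) (h3 t ht)]
  rw [e5, cast_nn g1 h1, cast_nn g2 h2]
  have hD0 : (0 : ℝ) < D := by exact_mod_cast g0
  have hD2 : (0 : ℝ) < 2 * D * D := by positivity
  constructor
  · rintro ⟨k1, k2⟩
    constructor
    · have := mul_le_mul_of_nonneg_left k1 hD2.le
      linarith
    · have := mul_le_mul_of_nonneg_left k2 hD2.le
      linarith
  · rintro ⟨k1, k2⟩
    constructor
    · refine le_of_mul_le_mul_left ?_ hD2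
      linarith
    · refine le_of_mul_le_mul_left ?_ hD2
      linarith

theorem X_mono (hI : IsInstance L δ T J) (hD : GoodD D L δ T J) {j : Job} {s s' : ℝ} :
    X D L δ j s ≤ X D L δ j s' ↔ s ≤ s' := by
  have h1 := nnL_pos hI hD
  have h2 : (0 : ℝ) < D := by exact_mod_cast hD.1
  have h3 : (0 : ℝ) < 2 * nn D L * D := by positivity
  unfold X
  constructor
  · intro h
    refine le_of_mul_le_mul_left ?_ h3
    linarith
  · intro h
    have := mul_le_mul_of_nonneg_left h h3.le
    linarith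

theorem jb_ok (hI : IsInstance L δ T J) (hD : GoodD D L δ T J) {j : Job} (hj : j ∈ J) :
    Ok (jb D L δ j) := by
  obtain ⟨e1, e2, e3, e4⟩ := casts hI hD hj
  refine ⟨Or.inl ⟨?_, ?_, ?_⟩, ?_, ?_⟩
  · unfold jb off
    exact ⟨nn D L * nn D j.1 + nn D δ * (nn D L - nn D j.2.2.2.2) + 1, by ring⟩
  · unfold jb off
    exact ⟨nn D L * (nn D j.2.1 - nn D j.2.2.1) + nn D δ * (nn D L - nn D j.2.2.2.2) + 1, by ring⟩
  · unfold jb
    exact ⟨nn D L * nn D j.2.2.1 + nn D δ * (nn D j.2.2.2.2 - nn D j.2.2.2.1), by ring⟩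
  · unfold jb off
    simp only
    omega
  · have h1 : ((jb D L δ j).1 : ℝ) ≤ ((jb D L δ j).2.1 : ℝ) := by
      rw [e1, e2, X_mono hI hD]
      have := (hI.2.2.2.2 j hj).1
      linarith
    exact_mod_cast h1

theorem X_st (hI : IsInstance L δ T J) (hD : GoodD D L δ T J) {j : Job} {i : Jb}
    (hf : Fix (jb D L δ j) i) : X D L δ j (toR (st D L δ (j, i))) = i.1 := by
  have h1 := nnL_pos hI hD
  have h2 : (0 : ℝ) < D := by exact_mod_cast hD.1
  have h3 : off D L δ j ≤ i.1 := by
    have := hf.2.2.1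
    unfold jb at this
    simp only at this
    omega
  unfold X st toR
  simp only
  rw [Nat.cast_sub h3]
  push_cast
  field_simp
  ring

theorem forall₂_st {Q : List Jb} : ∀ {J : List Job}, List.Forall₂ (fun j i => Fix (jb D L δ j) i) J Q →
    List.Forall₂ (fun j s => ∃ i ∈ Q, Fix (jb D L δ j) i ∧ s = toR (st D L δ (j, i))) J
      (((J.zip Q).map fun e => st D L δ e).map toR) := by
  induction Q with
  | nil =>
    intro J h
    cases h
    exact List.Forall₂.nil
  | cons i Q ih =>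
    intro J h
    cases h with
    | cons h1 h2 =>
      simp only [List.zip_cons_cons, List.map_cons]
      refine List.Forall₂.cons ⟨i, List.mem_cons_self, h1, rfl⟩ ?_
      refine (ih h2).imp ?_
      rintro j s ⟨i', hi', h3⟩
      exact ⟨i', List.mem_cons_of_mem _ hi', h3⟩

theorem forall₂_mem_zip {β γ : Type} {p : β → γ → Prop} {l : List β} {l' : List γ}
    (h : List.Forall₂ p l l') : (∀ e ∈ l.zip l', e.1 ∈ l ∧ p e.1 e.2) ∧
      ∀ a ∈ l, ∃ b, (a, b) ∈ l.zip l' ∧ p a b := by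
  induction h with
  | nil => simp
  | cons hab _ ih =>
    rw [List.zip_cons_cons]
    constructor
    · intro e he
      rcases List.mem_cons.1 he with h | h
      · rw [h]; exact ⟨List.mem_cons_self, hab⟩
      · exact ⟨List.mem_cons_of_mem _ (ih.1 e h).1, (ih.1 e h).2⟩
    · intro a ha
      rcases List.mem_cons.1 ha with h | h
      · rw [h]; exact ⟨_, List.mem_cons_self, hab⟩
      · obtain ⟨b, hb, hp⟩ := ih.2 a h
        exact ⟨b, List.mem_cons_of_mem _ hb, hp⟩

theorem algD_spec (hI : IsInstance L δ T J) (hD : GoodD D L δ T J) :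
    (∀ q ∈ algD D L δ T J, 0 < q.2) ∧ IsSchedule J ((algD D L δ T J).map toR) ∧
    ∀ S : List ℝ, IsSchedule J S →
      cancelled L δ T J ((algD D L δ T J).map toR) ≤ cancelled L δ T J S := by
  classical
  have hLp := nnL_pos hI hD
  have hLn : 0 < nn D L := by exact_mod_cast hLp
  obtain ⟨hs1, hs2⟩ := solve_spec (P := T.map fun t => tau D L δ t)
    (J := J.map fun j => jb D L δ j) (by
      intro τ hτ
      obtain ⟨t, _, rfl⟩ := List.mem_map.1 hτ
      refine ⟨⟨nn D L * (nn D t + nn D δ) + 1, ?_⟩, ?_⟩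
      · unfold tau; ring
      · unfold tau; omega) (by
      intro i hi
      obtain ⟨j, hj, rfl⟩ := List.mem_map.1 hi
      exact jb_ok hI hD hj)
  have halg : algD D L δ T J = (J.zip (solve (T.map fun t => tau D L δ t)
    (J.map fun j => jb D L δ j))).map fun e => st D L δ e := rfl
  rw [halg]
  generalize solve (T.map fun t => tau D L δ t) (J.map fun j => jb D L δ j) = Q at hs1 hs2
  rw [List.forall₂_map_left_iff] at hs1
  have hF := forall₂_st hs1
  have hsched : IsSchedule J (((J.zip Q).map fun e => st D L δ e).map toR) := by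
    unfold IsSchedule
    have h1 : ∀ {J' : List Job} {S' : List ℝ}, (∀ j ∈ J', j ∈ J) →
        List.Forall₂ (fun j s => ∃ i ∈ Q, Fix (jb D L δ j) i ∧ s = toR (st D L δ (j, i))) J' S' →
        List.Forall₂ (fun j s => rel j ≤ s ∧ s ≤ dl j - proc j) J' S' := by
      intro J' S' hsub h
      induction h with
      | nil => exact List.Forall₂.nil
      | @cons a b l₁ l₂ hab _ ih =>
        refine List.Forall₂.cons ?_ (ih fun j hj => hsub j (List.mem_cons_of_mem _ hj))
        obtain ⟨i, hi, hfix, rfl⟩ := hab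
        have hj := hsub _ List.mem_cons_self
        obtain ⟨e1, e2, _, _⟩ := casts hI hD hj
        constructor
        · refine (X_mono hI hD (j := a)).1 ?_
          rw [← e1, X_st hI hD hfix]
          exact_mod_cast hfix.2.2.1
        · refine (X_mono hI hD (j := a)).1 ?_
          rw [← e2, X_st hI hD hfix]
          exact_mod_cast hfix.2.2.2
    exact h1 (fun j hj => hj) hF
  refine ⟨?_, hsched, ?_⟩
  · intro q hq
    obtain ⟨e, _, rfl⟩ := List.mem_map.1 hq
    have := hD.1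
    unfold st
    simp only
    positivity
  · intro S hS
    have hz := forall₂_mem_zip hS
    have hz' := forall₂_mem_zip hF
    have key := hs2 (fun i x => ∃ e ∈ J.zip S, jb D L δ e.1 = i ∧ X D L δ e.1 e.2 = x) (by
      intro i hi
      obtain ⟨j, hj, rfl⟩ := List.mem_map.1 hi
      obtain ⟨s, hs, hr⟩ := hz.2 j hj
      obtain ⟨e1, e2, _, _⟩ := casts hI hD hj
      exact ⟨_, ⟨(j, s), hs, rfl, rfl⟩, by rw [e1, X_mono hI hD]; exact hr.1,
        by rw [e2, X_mono hI hD]; exact hr.2⟩)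
      (fun τ => decide (∃ e ∈ J.zip S, X D L δ e.1 e.2 ≤ τ ∧
        (τ : ℝ) ≤ X D L δ e.1 e.2 + (jb D L δ e.1).2.2))
      (fun τ => decide (∃ e ∈ J.zip (((J.zip Q).map fun e => st D L δ e).map toR),
        X D L δ e.1 e.2 ≤ τ ∧ (τ : ℝ) ≤ X D L δ e.1 e.2 + (jb D L δ e.1).2.2)) (by
        rintro τ _ ⟨i, hi, x, ⟨e, he, rfl, rfl⟩, h1, h2⟩
        simp only [decide_eq_true_eq]
        exact ⟨e, he, h1, h2⟩) (by
        intro τ _ h
        simp only [decide_eq_true_eq] at h
        obtain ⟨e, he, h1, h2⟩ := h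
        obtain ⟨_, i, hi, hfix, h3⟩ := hz'.1 e he
        rw [h3, X_st hI hD hfix] at h1 h2
        rw [← hfix.2.1] at h2
        exact ⟨i, hi, by exact_mod_cast h1, by exact_mod_cast h2⟩)
    have conv : ∀ S' : List ℝ, (∀ e ∈ J.zip S', e.1 ∈ J) → cancelled L δ T J S' =
        (T.map fun t => tau D L δ t).countP (fun τ : ℕ => decide (∃ e ∈ J.zip S',
          X D L δ e.1 e.2 ≤ (τ : ℝ) ∧ (τ : ℝ) ≤ X D L δ e.1 e.2 + (jb D L δ e.1).2.2)) := by
      intro S' hS'
      unfold cancelled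
      rw [List.countP_map, ← List.countP_eq_length_filter]
      refine List.countP_congr fun t ht => ?_
      simp only [decide_eq_true_eq, Function.comp]
      unfold Cancelled
      constructor
      · rintro ⟨e, he, h⟩
        exact ⟨e, he, (meets_iff hI hD (hS' e he) ht e.2).1 h⟩
      · rintro ⟨e, he, h⟩
        exact ⟨e, he, (meets_iff hI hD (hS' e he) ht e.2).2 h⟩
    rw [conv _ fun e he => (hz'.1 e he).1, conv _ fun e he => (hz.1 e he).1]
    exact key

theorem alg_spec (hI : IsInstance L δ T J) :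
    (∀ q ∈ alg (L, δ, T, J), 0 < q.2) ∧ IsSchedule J ((alg (L, δ, T, J)).map toR) ∧
    ∀ S : List ℝ, IsSchedule J S →
      cancelled L δ T J ((alg (L, δ, T, J)).map toR) ≤ cancelled L δ T J S :=
  algD_spec hI (goodD hI)

end

end Pool.Agent.X65.RW
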