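import Pool.Agent.X65.RW.DP

/-!
# An optimal placement, by self-reduction
-/

set_option autoImplicit false

namespace Pool.Agent.X65.RW

/-- the next job -/
def hd (l : List Jb) : Jb := l.head?.getD (0, 0, 0)

/-- the position of the next job: the first candidate that does not increase the optimum -/
def nxt (P : List ℕ) (V : ℕ) (st : List Jb × List Jb) : ℕ :=
  (((cands P (hd st.2)).filter fun c =>
    decide (optv P (st.1 ++ (c, c, (hd st.2).2.2) :: st.2.tail) ≤ V)).head?).getD 0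

/-- one step: fix the next job -/
def stp (P : List ℕ) (V : ℕ) (st : List Jb × List Jb) : List Jb × List Jb :=
  (st.1 ++ [(nxt P V st, nxt P V st, (hd st.2).2.2)], st.2.tail)

/-- all jobs, fixed -/
def run (P : List ℕ) (V : ℕ) (J : List Jb) : List Jb :=
  (J.foldl (fun st _ => stp P V st) ([], J)).1

/-- an optimal placement -/
def solve (P : List ℕ) (J : List Jb) : List Jb := run P (optv P J) J

/-- valid job -/
def Ok (j : Jb) : Prop := Good j ∧ 0 < j.1 ∧ j.1 ≤ j.2.1

/-- `i` is `j` at a fixed position -/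
def Fix (j i : Jb) : Prop := i.1 = i.2.1 ∧ i.2.2 = j.2.2 ∧ j.1 ≤ i.1 ∧ i.1 ≤ j.2.1

theorem nxt_spec {P : List ℕ} (hP : ∀ τ ∈ P, Even τ ∧ 0 < τ) {V : ℕ} {dn rest : List Jb} {j : Jb}
    (hok : ∀ i ∈ dn ++ j :: rest, Ok i) (hV : optv P (dn ++ j :: rest) ≤ V) :
    nxt P V (dn, j :: rest) ∈ cands P j ∧
      optv P (dn ++ (nxt P V (dn, j :: rest), nxt P V (dn, j :: rest), j.2.2) :: rest) ≤ V := by
  classical
  have hjm : j ∈ dn ++ j :: rest := by simp
  have hex : ∃ c ∈ cands P j, optv P (dn ++ (c, c, j.2.2) :: rest) ≤ V := by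
    obtain ⟨f, hf, hc⟩ := optv_ach (P := P) (J := dn ++ j :: rest) (fun τ hτ => (hP τ hτ).2)
      (fun i hi => (hok i hi).2.1) (fun i hi => (hok i hi).2.2)
    have hfj := hf j hjm
    obtain ⟨c, hc1, hc2⟩ := exists_cand (P := P) (fun τ hτ => (hP τ hτ).1) (hok j hjm).1
      (x := (f j : ℝ)) (by exact_mod_cast hfj.1) (by exact_mod_cast hfj.2)
    refine ⟨c, hc1, le_trans ?_ (hc.trans hV)⟩
    refine optv_le (fun τ hτ => (hP τ hτ).1)
      (fun i x => (i = (c, c, j.2.2) ∧ x = (c : ℝ)) ∨ (i ≠ (c, c, j.2.2) ∧ x = (f i : ℝ)))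
      ?_ ?_ _ ?_
    · intro i hi
      rw [List.mem_append, List.mem_cons] at hi
      rcases hi with hi | hi | hi
      · exact (hok i (by simp [hi])).1
      · rw [hi]; exact Or.inr rfl
      · exact (hok i (by simp [hi])).1
    · intro i hi
      by_cases hic : i = (c, c, j.2.2)
      · refine ⟨c, Or.inl ⟨hic, rfl⟩, ?_, ?_⟩ <;> rw [hic]
      · have hi' : i ∈ dn ++ j :: rest := by
          rw [List.mem_append, List.mem_cons] at hi ⊢
          rcases hi with hi | hi | hi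
          · exact Or.inl hi
          · exact absurd hi hic
          · exact Or.inr (Or.inr hi)
        have := hf i hi'
        exact ⟨f i, Or.inr ⟨hic, rfl⟩, by exact_mod_cast this.1, by exact_mod_cast this.2⟩
    · rintro τ hτ ⟨i, hi, x, hx, h1, h2⟩
      simp only [decide_eq_true_eq]
      rcases hx with ⟨hic, hx⟩ | ⟨hic, hx⟩
      · refine ⟨j, hjm, ?_⟩
        rw [hx, hic] at h2
        rw [hx] at h1
        simp only at h2
        have h3 := (hc2 τ hτ).1 ⟨by exact_mod_cast h1, by exact_mod_cast h2⟩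
        exact ⟨by exact_mod_cast h3.1, by exact_mod_cast h3.2⟩
      · have hi' : i ∈ dn ++ j :: rest := by
          rw [List.mem_append, List.mem_cons] at hi ⊢
          rcases hi with hi | hi | hi
          · exact Or.inl hi
          · exact absurd hi hic
          · exact Or.inr (Or.inr hi)
        refine ⟨i, hi', ?_⟩
        rw [hx] at h1 h2
        exact ⟨by exact_mod_cast h1, by exact_mod_cast h2⟩
  have hkey : ∃ c, nxt P V (dn, j :: rest) = c ∧ c ∈ cands P j ∧
      optv P (dn ++ (c, c, j.2.2) :: rest) ≤ V := by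
    unfold nxt
    have hhd : hd (j :: rest) = j := rfl
    simp only [hhd, List.tail_cons]
    cases hl : (cands P j).filter fun c =>
        decide (optv P (dn ++ (c, c, j.2.2) :: rest) ≤ V) with
    | nil =>
      exfalso
      obtain ⟨c, h1, h2⟩ := hex
      have h3 : c ∈ (cands P j).filter fun c =>
          decide (optv P (dn ++ (c, c, j.2.2) :: rest) ≤ V) :=
        List.mem_filter.2 ⟨h1, by simpa using h2⟩
      rw [hl] at h3
      exact List.not_mem_nil h3
    | cons c l =>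
      have h3 : c ∈ (cands P j).filter fun c =>
          decide (optv P (dn ++ (c, c, j.2.2) :: rest) ≤ V) := by
        rw [hl]
        exact List.mem_cons_self
      rw [List.mem_filter, decide_eq_true_eq] at h3
      exact ⟨c, rfl, h3⟩
  obtain ⟨c, h1, h2, h3⟩ := hkey
  rw [h1]
  exact ⟨h2, h3⟩

theorem run_aux {P : List ℕ} (hP : ∀ τ ∈ P, Even τ ∧ 0 < τ) (V : ℕ) :
    ∀ rest dn : List Jb, (∀ i ∈ dn ++ rest, Ok i) → optv P (dn ++ rest) ≤ V →
      ∃ fx : List Jb, (rest.foldl (fun st _ => stp P V st) (dn, rest)).1 = dn ++ fx ∧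
        List.Forall₂ Fix rest fx ∧ optv P (dn ++ fx) ≤ V ∧ ∀ i ∈ dn ++ fx, Ok i
  | [], dn, h1, h2 => ⟨[], by simp, List.Forall₂.nil, h2, h1⟩
  | j :: rest, dn, h1, h2 => by
    obtain ⟨h3, h4⟩ := nxt_spec hP h1 h2
    have hstp : stp P V (dn, j :: rest) = (dn ++ [(nxt P V (dn, j :: rest),
        nxt P V (dn, j :: rest), j.2.2)], rest) := rfl
    rw [List.foldl_cons, hstp]
    generalize nxt P V (dn, j :: rest) = c at h3 h4
    have h5 := (mem_cands.1 h3).2
    have hj := h1 j (by simp)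
    have e1 : dn ++ [(c, c, j.2.2)] ++ rest = dn ++ (c, c, j.2.2) :: rest := by simp
    obtain ⟨fx, h6, h7, h8, h9⟩ := run_aux hP V rest (dn ++ [(c, c, j.2.2)]) (by
      intro i hi
      rw [e1, List.mem_append, List.mem_cons] at hi
      rcases hi with hi | hi | hi
      · exact h1 i (by simp [hi])
      · rw [hi]
        exact ⟨Or.inr rfl, lt_of_lt_of_le hj.2.1 h5.1, le_rfl⟩
      · exact h1 i (by simp [hi])) (by rw [e1]; exact h4)
    have e2 : dn ++ [(c, c, j.2.2)] ++ fx = dn ++ (c, c, j.2.2) :: fx := by simp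
    rw [e2] at h6 h8 h9
    exact ⟨(c, c, j.2.2) :: fx, h6, List.Forall₂.cons ⟨rfl, rfl, h5.1, h5.2⟩ h7, h8, h9⟩

theorem solve_spec {P : List ℕ} {J : List Jb} (hP : ∀ τ ∈ P, Even τ ∧ 0 < τ)
    (hJ : ∀ j ∈ J, Ok j) : List.Forall₂ Fix J (solve P J) ∧
      ∀ (R : Jb → ℝ → Prop), (∀ j ∈ J, ∃ x : ℝ, R j x ∧ (j.1 : ℝ) ≤ x ∧ x ≤ j.2.1) →
      ∀ s s' : ℕ → Bool, (∀ τ ∈ P, (∃ j ∈ J, ∃ x, R j x ∧ x ≤ τ ∧ (τ : ℝ) ≤ x + j.2.2) →
        s τ = true) → (∀ τ ∈ P, s' τ = true → ∃ i ∈ solve P J, i.1 ≤ τ ∧ τ ≤ i.1 + i.2.2) →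
      P.countP s' ≤ P.countP s := by
  classical
  obtain ⟨fx, h6, h7, h8, h9⟩ := run_aux hP (optv P J) J [] (by simpa using hJ) (by simp)
  rw [List.nil_append] at h6 h8 h9
  have hs : solve P J = fx := h6
  rw [hs]
  refine ⟨h7, ?_⟩
  intro R hR s s' hsR hs'
  obtain ⟨f, hf, hc⟩ := optv_ach (P := P) (J := fx) (fun τ hτ => (hP τ hτ).2)
    (fun i hi => (h9 i hi).2.1) (fun i hi => (h9 i hi).2.2)
  refine le_trans ?_ (hc.trans (h8.trans (optv_le (fun τ hτ => (hP τ hτ).1) R
    (fun j hj => (hJ j hj).1) hR s hsR)))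
  have hfix : ∀ i ∈ fx, i.1 = i.2.1 := by
    intro i hi
    clear hf hc h8 h9 h6 hs hs'
    induction h7 with
    | nil => simp at hi
    | cons hab _ ih =>
      rcases List.mem_cons.1 hi with h | h
      · rw [h]; exact hab.1
      · exact ih (fun j hj => hJ j (List.mem_cons_of_mem _ hj))
          (fun j hj => hR j (List.mem_cons_of_mem _ hj))
          (fun τ hτ ⟨j, hj, x, hx⟩ => hsR τ hτ ⟨j, List.mem_cons_of_mem _ hj, x, hx⟩) h
  refine List.countP_mono_left fun τ hτ h => ?_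
  obtain ⟨i, hi, h1, h2⟩ := hs' τ hτ h
  simp only [decide_eq_true_eq]
  have h3 := hf i hi
  have h4 := hfix i hi
  have h5 : f i = i.1 := by omega
  exact ⟨i, hi, by omega, by omega⟩

end Pool.Agent.X65.RW
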