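import Pool.Agent.X65.RW.Search
import Pool.Agent.X249.Kit

/-!
# The table of the dynamic programme, and polynomial time
-/

set_option autoImplicit false

namespace Pool.Agent.X65.RW

open Pool.Agent.NPC Pool.Agent.X249

/-- tables: values at pairs of borders -/
abbrev Tb : Type := List ((ℕ × ℕ) × ℕ)

/-- reading an entry -/
def look (T : Tb) (q : ℕ × ℕ) : ℕ :=
  (((T.filter fun e => decide (e.1 = q)).map fun e => e.2).head?).getD 0

/-- the table for one more job -/
def row (P : List ℕ) (K : List (ℕ × ℕ)) (j : Jb) (T : Tb) : Tb :=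
  K.map fun q => (q, if inS j q.1 q.2 = true then
      minv P.length ((cands P j).map fun t =>
        cnt P t (t + j.2.2) q.1 q.2 + look T (q.1, t) + look T (t + j.2.2, q.2))
    else look T q)

/-- the table -/
def tab (P : List ℕ) (K : List (ℕ × ℕ)) (js : List Jb) : Tb :=
  js.foldr (row P K) (K.map fun q => (q, 0))

/-- left borders -/
def lefts (P : List ℕ) (J : List Jb) : List ℕ :=
  0 :: J.flatMap fun j => (cands P j).map fun t => t + j.2.2

/-- right borders -/
def rights (P : List ℕ) (J : List Jb) : List ℕ := big P J :: J.flatMap fun j => cands P j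

/-- the optimum, computed with the table -/
def val (P : List ℕ) (J : List Jb) : ℕ :=
  look (tab P (lefts P J ×ˢ rights P J) (srt J)) (0, big P J)

theorem look_map {K : List (ℕ × ℕ)} {g : ℕ × ℕ → ℕ} {q : ℕ × ℕ} (h : q ∈ K) :
    look (K.map fun q => (q, g q)) q = g q := by
  unfold look
  induction K with
  | nil => simp at h
  | cons a K ih =>
    rw [List.map_cons, List.filter_cons]
    by_cases haq : a = q
    · subst haq
      simp
    · have h' : q ∈ K := by
        rcases List.mem_cons.1 h with h | h
        · exact absurd h.symm haq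
        · exact h
      simp only [haq, decide_false]
      exact ih h'

theorem tab_eq (P : List ℕ) (K : List (ℕ × ℕ)) : ∀ js : List Jb,
    (∀ j ∈ js, ∀ t ∈ cands P j, ∀ q ∈ K, (q.1, t) ∈ K ∧ (t + j.2.2, q.2) ∈ K) →
      tab P K js = K.map fun q => (q, cost P js q.1 q.2)
  | [], _ => rfl
  | j :: js, h => by
    have ih := tab_eq P K js fun i hi => h i (List.mem_cons_of_mem _ hi)
    have h1 : tab P K (j :: js) = row P K j (tab P K js) := rfl
    rw [h1, ih]
    unfold row
    refine List.map_congr_left fun q hq => ?_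
    have h2 : (cands P j).map (fun t => cnt P t (t + j.2.2) q.1 q.2 +
          look (K.map fun q => (q, cost P js q.1 q.2)) (q.1, t) +
          look (K.map fun q => (q, cost P js q.1 q.2)) (t + j.2.2, q.2)) =
        (cands P j).map fun t => cnt P t (t + j.2.2) q.1 q.2 + cost P js q.1 t +
          cost P js (t + j.2.2) q.2 := by
      refine List.map_congr_left fun t ht => ?_
      have h3 := h j List.mem_cons_self t ht q hq
      rw [look_map (g := fun q => cost P js q.1 q.2) h3.1,
        look_map (g := fun q => cost P js q.1 q.2) h3.2]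
    have h4 : look (K.map fun q => (q, cost P js q.1 q.2)) q = cost P js q.1 q.2 :=
      look_map (g := fun q => cost P js q.1 q.2) hq
    have h5 : cost P (j :: js) q.1 q.2 = if inS j q.1 q.2 = true then
      minv P.length ((cands P j).map fun t =>
        cnt P t (t + j.2.2) q.1 q.2 + cost P js q.1 t + cost P js (t + j.2.2) q.2)
      else cost P js q.1 q.2 := rfl
    rw [h2, h4, h5]

theorem val_eq (P : List ℕ) (J : List Jb) : val P J = optv P J := by
  unfold val optv
  rw [tab_eq]
  · refine look_map (g := fun q => cost P (srt J) q.1 q.2) (List.mem_product.2 ⟨?_, ?_⟩)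
    · exact List.mem_cons_self
    · exact List.mem_cons_self
  · rintro j hj t ht ⟨A, B⟩ hq
    rw [mem_srt] at hj
    rw [List.mem_product] at hq
    constructor
    · refine List.mem_product.2 ⟨hq.1, ?_⟩
      exact List.mem_cons_of_mem _ (List.mem_flatMap.2 ⟨j, hj, ht⟩)
    · refine List.mem_product.2 ⟨?_, hq.2⟩
      exact List.mem_cons_of_mem _ (List.mem_flatMap.2 ⟨j, hj, List.mem_map.2 ⟨t, ht, rfl⟩⟩)

/-! ### Sizes -/

theorem minv_le_bound (M : ℕ) (l : List ℕ) : minv M l ≤ M := by
  unfold minv
  rw [List.head?_filter]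
  cases hf : (List.range M).find? (fun v => decide (v ∈ l)) with
  | none => simp
  | some i =>
    rw [List.find?_range_eq_some] at hf
    rw [Option.getD_some]
    have := List.mem_range.1 hf.2.1
    omega

theorem look_le {T : Tb} {M : ℕ} (h : ∀ e ∈ T, e.2 ≤ M) (q : ℕ × ℕ) : look T q ≤ M := by
  unfold look
  cases hl : ((T.filter fun e => decide (e.1 = q)).map fun e => e.2) with
  | nil => simp
  | cons v l =>
    have h1 : v ∈ ((T.filter fun e => decide (e.1 = q)).map fun e => e.2) := by
      rw [hl]; exact List.mem_cons_self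
    rw [List.mem_map] at h1
    obtain ⟨e, he, hv⟩ := h1
    simp only [List.head?_cons, Option.getD_some]
    rw [← hv]
    exact h e (List.mem_filter.1 he).1

theorem tab_bound (P : List ℕ) (K : List (ℕ × ℕ)) : ∀ js : List Jb,
    (tab P K js).length = K.length ∧ ∀ e ∈ tab P K js, e.1 ∈ K ∧ e.2 ≤ P.length
  | [] => by
    unfold tab
    simp only [List.foldr_nil, List.length_map, List.mem_map, true_and]
    rintro e ⟨q, hq, rfl⟩
    exact ⟨hq, Nat.zero_le _⟩
  | j :: js => by
    have ih := tab_bound P K js
    have h1 : tab P K (j :: js) = row P K j (tab P K js) := rfl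
    rw [h1]
    unfold row
    simp only [List.length_map, List.mem_map, true_and]
    rintro e ⟨q, hq, rfl⟩
    refine ⟨hq, ?_⟩
    simp only
    split_ifs
    · exact minv_le_bound _ _
    · exact look_le (fun e he => (ih.2 e he).2) q

section

variable {α : Type} [TEnc α]

attribute [local fun_prop] Poly.range_length

theorem poly_inS {j : α → Jb} {A B : α → ℕ} (hj : NPC.Poly j) (hA : NPC.Poly A)
    (hB : NPC.Poly B) : NPC.Poly (fun x => inS (j x) (A x) (B x)) := by
  unfold inS
  fun_prop

theorem poly_brk {P : α → List ℕ} {j : α → Jb} (hP : NPC.Poly P) (hj : NPC.Poly j) :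
    NPC.Poly (fun x => brk (P x) (j x)) := by
  unfold brk
  fun_prop

attribute [local fun_prop] poly_inS poly_brk

theorem poly_cands {P : α → List ℕ} {j : α → Jb} (hP : NPC.Poly P) (hj : NPC.Poly j) :
    NPC.Poly (fun x => cands (P x) (j x)) := by
  unfold cands
  fun_prop

theorem poly_cnt {P : α → List ℕ} {lo hi A B : α → ℕ} (hP : NPC.Poly P) (hlo : NPC.Poly lo)
    (hhi : NPC.Poly hi) (hA : NPC.Poly A) (hB : NPC.Poly B) :
    NPC.Poly (fun x => cnt (P x) (lo x) (hi x) (A x) (B x)) := by
  unfold cnt
  fun_prop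

theorem poly_minv {P l : α → List ℕ} (hP : NPC.Poly P) (hl : NPC.Poly l) :
    NPC.Poly (fun x => minv (P x).length (l x)) := by
  unfold minv
  fun_prop

theorem poly_look {T : α → Tb} {q : α → ℕ × ℕ} (hT : NPC.Poly T) (hq : NPC.Poly q) :
    NPC.Poly (fun x => look (T x) (q x)) := by
  unfold look
  fun_prop

attribute [local fun_prop] poly_cands poly_cnt poly_minv poly_look

theorem poly_row {P : α → List ℕ} {K : α → List (ℕ × ℕ)} {j : α → Jb} {T : α → Tb}
    (hP : NPC.Poly P) (hK : NPC.Poly K) (hj : NPC.Poly j) (hT : NPC.Poly T) :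
    NPC.Poly (fun x => row (P x) (K x) (j x) (T x)) := by
  unfold row
  fun_prop

theorem poly_ins {l : α → List Jb} {j : α → Jb} (hl : NPC.Poly l) (hj : NPC.Poly j) :
    NPC.Poly (fun x => ins (l x) (j x)) := by
  unfold ins
  fun_prop

theorem poly_big {P : α → List ℕ} {J : α → List Jb} (hP : NPC.Poly P) (hJ : NPC.Poly J) :
    NPC.Poly (fun x => big (P x) (J x)) := by
  unfold big
  fun_prop

theorem poly_lefts {P : α → List ℕ} {J : α → List Jb} (hP : NPC.Poly P) (hJ : NPC.Poly J) :
    NPC.Poly (fun x => lefts (P x) (J x)) := by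
  unfold lefts
  fun_prop

attribute [local fun_prop] poly_row poly_ins poly_big

theorem poly_rights {P : α → List ℕ} {J : α → List Jb} (hP : NPC.Poly P) (hJ : NPC.Poly J) :
    NPC.Poly (fun x => rights (P x) (J x)) := by
  unfold rights
  fun_prop

end

theorem sz_perm {β : Type} [TEnc β] {l l' : List β} (h : l.Perm l') : sz l = sz l' := by
  induction h with
  | nil => rfl
  | cons a _ ih => rw [sz_list_cons, sz_list_cons, ih]
  | swap a b l => simp only [sz_list_cons]; omega
  | trans _ _ ih1 ih2 => rw [ih1, ih2]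

theorem poly_srt_aux : NPC.Poly (fun x : List Jb => srt x) := by
  unfold srt
  refine NPC.Poly.foldl (l := fun x : List Jb => x) (s := fun _ => []) (F := fun _ l j => ins l j)
    (by fun_prop) (by fun_prop) ?_ Polynomial.X ?_
  · exact poly_ins (by fun_prop) (by fun_prop)
  · intro x k _
    have h1 := (srt_aux (x.take k) [] List.Pairwise.nil).2
    rw [List.nil_append] at h1
    have h2 : sz ((x.take k).foldl (fun l j => ins l j) []) = sz (x.take k) := sz_perm h1
    rw [h2, Polynomial.eval_X]
    exact NPC.Poly.sz_take_le x k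

theorem poly_tab_aux : NPC.Poly (fun x : List ℕ × List (ℕ × ℕ) × List Jb =>
    tab x.1 x.2.1 x.2.2) := by
  unfold tab
  refine NPC.Poly.foldr (l := fun x : List ℕ × List (ℕ × ℕ) × List Jb => x.2.2)
    (s := fun x => x.2.1.map fun q => (q, 0)) (F := fun x j T => row x.1 x.2.1 j T)
    (by fun_prop) (by fun_prop) ?_
    (Polynomial.X * (Polynomial.C 5 * Polynomial.X + Polynomial.C 4) + Polynomial.C 1) ?_
  · exact poly_row (by fun_prop) (by fun_prop) (by fun_prop) (by fun_prop)
  · rintro ⟨P, K, js⟩ k _
    simp only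
    have h1 := tab_bound P K (js.drop k)
    unfold tab at h1
    set T := (js.drop k).foldr (row P K) (K.map fun q => (q, 0)) with hT
    have h3 : K.length < sz K := length_lt_sz K
    have h4 : P.length < sz P := length_lt_sz P
    have h5 : sz (P, K, js) = sz P + (sz K + sz js + 1) + 1 := by
      simp only [sz_pair]
    have h6 : ∀ e ∈ T, sz e ≤ 5 * sz (P, K, js) + 3 := by
      intro e he
      obtain ⟨h7, h8⟩ := h1.2 e he
      have h9 : sz e.1 < sz K := sz_le_of_mem h7
      have h10 := sz_nat_le_linear e.2
      have h11 : sz e = sz e.1 + sz e.2 + 1 := sz_pair e.1 e.2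
      omega
    have h9 := sz_le_length_mul T _ h6
    change sz T ≤ _
    refine h9.trans ?_
    simp only [Polynomial.eval_add, Polynomial.eval_mul, Polynomial.eval_C, Polynomial.eval_X]
    rw [h1.1]
    have h10 : K.length ≤ sz (P, K, js) := by omega
    nlinarith

end Pool.Agent.X65.RW
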