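import Pool.Agent.X65.RW.Tab

/-!
# Polynomial time of the search
-/

set_option autoImplicit false

namespace Pool.Agent.X65.RW

open Pool.Agent.NPC Pool.Agent.X249

section

variable {α : Type} [TEnc α]

theorem poly_srt {J : α → List Jb} (hJ : NPC.Poly J) : NPC.Poly (fun x => srt (J x)) :=
  poly_srt_aux.comp hJ

theorem poly_tab {P : α → List ℕ} {K : α → List (ℕ × ℕ)} {js : α → List Jb} (hP : NPC.Poly P)
    (hK : NPC.Poly K) (hj : NPC.Poly js) : NPC.Poly (fun x => tab (P x) (K x) (js x)) := by
  have h := NPC.Poly.comp poly_tab_aux (NPC.Poly.pair hP (NPC.Poly.pair hK hj))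
  exact h

attribute [local fun_prop] poly_lefts poly_rights poly_srt poly_tab poly_look poly_big

theorem poly_optv {P : α → List ℕ} {J : α → List Jb} (hP : NPC.Poly P) (hJ : NPC.Poly J) :
    NPC.Poly (fun x => optv (P x) (J x)) := by
  have h : NPC.Poly (fun x => val (P x) (J x)) := by
    unfold val
    fun_prop
  exact h.congr fun x => val_eq (P x) (J x)

attribute [local fun_prop] poly_optv poly_cands

theorem poly_hd {l : α → List Jb} (hl : NPC.Poly l) : NPC.Poly (fun x => hd (l x)) := by
  unfold hd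
  fun_prop

attribute [local fun_prop] poly_hd

theorem poly_nxt {P : α → List ℕ} {V : α → ℕ} {st : α → List Jb × List Jb} (hP : NPC.Poly P)
    (hV : NPC.Poly V) (hs : NPC.Poly st) : NPC.Poly (fun x => nxt (P x) (V x) (st x)) := by
  unfold nxt
  fun_prop

attribute [local fun_prop] poly_nxt

theorem poly_stp {P : α → List ℕ} {V : α → ℕ} {st : α → List Jb × List Jb} (hP : NPC.Poly P)
    (hV : NPC.Poly V) (hs : NPC.Poly st) : NPC.Poly (fun x => stp (P x) (V x) (st x)) := by
  unfold stp
  fun_prop

end

theorem hd_le (l : List Jb) : (∃ j ∈ l, hd l = j) ∨ hd l = (0, 0, 0) := by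
  cases l with
  | nil => exact Or.inr rfl
  | cons j l => exact Or.inl ⟨j, List.mem_cons_self, rfl⟩

theorem sz_hd (l : List Jb) : sz (hd l) ≤ sz l + 5 := by
  cases l with
  | nil =>
    have : sz (hd ([] : List Jb)) = 5 := rfl
    omega
  | cons j l =>
    have h : hd (j :: l) = j := rfl
    rw [h, sz_list_cons]
    omega

theorem nxt_le (P : List ℕ) (V : ℕ) (st : List Jb × List Jb) :
    nxt P V st ≤ (hd st.2).2.1 := by
  unfold nxt
  cases hl : (cands P (hd st.2)).filter fun c =>
    decide (optv P (st.1 ++ (c, c, (hd st.2).2.2) :: st.2.tail) ≤ V) with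
  | nil => simp
  | cons c l =>
    have h3 : c ∈ (cands P (hd st.2)).filter fun c =>
        decide (optv P (st.1 ++ (c, c, (hd st.2).2.2) :: st.2.tail) ≤ V) := by
      rw [hl]
      exact List.mem_cons_self
    have h4 := (mem_cands.1 (List.mem_filter.1 h3).1).2.2
    simpa using h4

theorem stp_bound (P : List ℕ) (V : ℕ) : ∀ (l : List Jb) (st : List Jb × List Jb) (S : ℕ),
    sz st.2 ≤ S → sz (l.foldl (fun st _ => stp P V st) st) ≤ sz st + l.length * (5 * S + 30)
  | [], st, S, _ => by simp
  | j :: l, st, S, h => by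
    have h1 : sz (stp P V st).2 ≤ S := by
      have : sz (st.2.drop 1) ≤ sz st.2 := NPC.Poly.sz_drop_le st.2 1
      rw [List.drop_one] at this
      exact this.trans h
    have h2 := stp_bound P V l (stp P V st) S h1
    rw [List.foldl_cons, List.length_cons]
    refine h2.trans ?_
    have h3 : sz (stp P V st) ≤ sz st + (5 * S + 30) := by
      unfold stp
      have h4 : sz (st.2.drop 1) ≤ sz st.2 := NPC.Poly.sz_drop_le st.2 1
      rw [List.drop_one] at h4
      have h5 := sz_append st.1 [(nxt P V st, nxt P V st, (hd st.2).2.2)]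
      have h6 : sz [(nxt P V st, nxt P V st, (hd st.2).2.2)] =
          (sz (nxt P V st) + (sz (nxt P V st) + sz (hd st.2).2.2 + 1) + 1) + 1 + 1 := by
        simp only [sz_list_cons, sz_pair, sz_list_nil]
      have h7 := sz_nat_mono_le (nxt_le P V st)
      have h8 := sz_hd st.2
      have h9 : sz (hd st.2) = sz (hd st.2).1 + (sz (hd st.2).2.1 + sz (hd st.2).2.2 + 1) + 1 := by
        rw [← sz_pair, ← sz_pair]
      have h10 : sz st = sz st.1 + sz st.2 + 1 := sz_pair st.1 st.2
      rw [sz_pair]
      omega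
    rw [Nat.add_mul, Nat.one_mul]
    omega

theorem poly_run_aux : NPC.Poly (fun x : List ℕ × ℕ × List Jb => run x.1 x.2.1 x.2.2) := by
  unfold run
  refine NPC.Poly.fst (NPC.Poly.foldl (l := fun x : List ℕ × ℕ × List Jb => x.2.2)
    (s := fun x => ([], x.2.2)) (F := fun x st _ => stp x.1 x.2.1 st)
    (by fun_prop) (by fun_prop) ?_
    (Polynomial.X + Polynomial.C 2 + Polynomial.X * (Polynomial.C 5 * Polynomial.X +
      Polynomial.C 30)) ?_)
  · exact poly_stp (by fun_prop) (by fun_prop) (by fun_prop)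
  · rintro ⟨P, V, J⟩ k hk
    simp only at hk ⊢
    have h1 := stp_bound P V (J.take k) ([], J) (sz J) le_rfl
    refine h1.trans ?_
    have h2 : J.length < sz J := length_lt_sz J
    have h3 : sz (P, V, J) = sz P + (sz V + sz J + 1) + 1 := by
      simp only [sz_pair]
    have h4 : sz (([] : List Jb), J) = 1 + sz J + 1 := by
      rw [sz_pair, sz_list_nil]
    simp only [Polynomial.eval_add, Polynomial.eval_mul, Polynomial.eval_C, Polynomial.eval_X]
    rw [List.length_take, h4]
    have h5 : min k J.length ≤ sz (P, V, J) := by omega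
    have h6 : 5 * sz J + 30 ≤ 5 * sz (P, V, J) + 30 := by omega
    have h7 := Nat.mul_le_mul h5 h6
    omega

theorem poly_solve {α : Type} [TEnc α] {P : α → List ℕ} {J : α → List Jb} (hP : NPC.Poly P)
    (hJ : NPC.Poly J) : NPC.Poly (fun x => solve (P x) (J x)) := by
  have h := NPC.Poly.comp poly_run_aux (NPC.Poly.pair hP (NPC.Poly.pair (poly_optv hP hJ) hJ))
  unfold solve
  exact h

end Pool.Agent.X65.RW
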