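import Pool.Agent.X65.RW.Geo
import Pool.Agent.X65.RW.Tab2

/-!
# The algorithm runs in polynomial time
-/

set_option autoImplicit false

namespace Pool.Agent.X65.RW

open Pool.Agent.NPC Pool.Agent.X249

theorem size_mul (a b : ℕ) : (a * b).size ≤ a.size + b.size := by
  rw [Nat.size_le, pow_add]
  exact Nat.mul_lt_mul'' (Nat.lt_size_self a) (Nat.lt_size_self b)

theorem size_foldl : ∀ (l : List ℕ) (a : ℕ),
    (l.foldl (fun a b => a * b) a).size ≤ a.size + sz l
  | [], a => by simp
  | b :: l, a => by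
    rw [List.foldl_cons, sz_list_cons]
    have h1 := size_foldl l (a * b)
    have h2 := size_mul a b
    have h3 := size_le_sz b
    omega

theorem poly_prd_aux : NPC.Poly (fun l : List ℕ => prd l) := by
  unfold prd
  refine NPC.Poly.foldl (l := fun x : List ℕ => x) (s := fun _ => 1) (F := fun _ a b => a * b)
    (by fun_prop) (by fun_prop) (by fun_prop) (Polynomial.C 4 * Polynomial.X + Polynomial.C 5) ?_
  intro l k _
  have h1 := size_foldl (l.take k) 1
  have h2 := NPC.Poly.sz_take_le l k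
  have h3 := sz_nat_le ((l.take k).foldl (fun a b => a * b) 1)
  have h4 : (1 : ℕ).size = 1 := by simp
  simp only [Polynomial.eval_add, Polynomial.eval_mul, Polynomial.eval_C, Polynomial.eval_X]
  omega

section

variable {α : Type} [TEnc α]

theorem poly_prd {l : α → List ℕ} (hl : NPC.Poly l) : NPC.Poly (fun x => prd (l x)) := by
  have h := NPC.Poly.comp poly_prd_aux hl
  exact h

theorem poly_nn {D : α → ℕ} {q : α → Fr} (hD : NPC.Poly D) (hq : NPC.Poly q) :
    NPC.Poly (fun x => nn (D x) (q x)) := by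
  unfold nn
  fun_prop

attribute [local fun_prop] poly_prd poly_nn

theorem poly_tau {D : α → ℕ} {L δ t : α → Fr} (hD : NPC.Poly D) (hL : NPC.Poly L)
    (hδ : NPC.Poly δ) (ht : NPC.Poly t) : NPC.Poly (fun x => tau (D x) (L x) (δ x) (t x)) := by
  unfold tau
  fun_prop

theorem poly_off {D : α → ℕ} {L δ : α → Fr} {j : α → Job} (hD : NPC.Poly D) (hL : NPC.Poly L)
    (hδ : NPC.Poly δ) (hj : NPC.Poly j) : NPC.Poly (fun x => off (D x) (L x) (δ x) (j x)) := by
  unfold off
  fun_prop

attribute [local fun_prop] poly_tau poly_off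

theorem poly_jb {D : α → ℕ} {L δ : α → Fr} {j : α → Job} (hD : NPC.Poly D) (hL : NPC.Poly L)
    (hδ : NPC.Poly δ) (hj : NPC.Poly j) : NPC.Poly (fun x => jb (D x) (L x) (δ x) (j x)) := by
  unfold jb
  fun_prop

theorem poly_st {D : α → ℕ} {L δ : α → Fr} {e : α → Job × Jb} (hD : NPC.Poly D)
    (hL : NPC.Poly L) (hδ : NPC.Poly δ) (he : NPC.Poly e) :
    NPC.Poly (fun x => st (D x) (L x) (δ x) (e x)) := by
  unfold st
  fun_prop

theorem poly_dens {L δ : α → Fr} {T : α → List Fr} {J : α → List Job} (hL : NPC.Poly L)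
    (hδ : NPC.Poly δ) (hT : NPC.Poly T) (hJ : NPC.Poly J) :
    NPC.Poly (fun x => dens (L x) (δ x) (T x) (J x)) := by
  unfold dens
  fun_prop

attribute [local fun_prop] poly_jb poly_st poly_dens poly_solve

theorem poly_algD {D : α → ℕ} {L δ : α → Fr} {T : α → List Fr} {J : α → List Job}
    (hD : NPC.Poly D) (hL : NPC.Poly L) (hδ : NPC.Poly δ) (hT : NPC.Poly T) (hJ : NPC.Poly J) :
    NPC.Poly (fun x => algD (D x) (L x) (δ x) (T x) (J x)) := by
  unfold algD
  fun_prop

end

theorem poly_alg : NPC.Poly alg := by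
  have h : NPC.Poly (fun x : Fr × Fr × List Fr × List Job =>
      algD (prd (dens x.1 x.2.1 x.2.2.1 x.2.2.2)) x.1 x.2.1 x.2.2.1 x.2.2.2) :=
    poly_algD (poly_prd (poly_dens (by fun_prop) (by fun_prop) (by fun_prop) (by fun_prop)))
      (by fun_prop) (by fun_prop) (by fun_prop) (by fun_prop)
  exact h

end Pool.Agent.X65.RW
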